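import Mathlib
import Pool.Agent.Helper69.BQ.St.S2
import Pool.Agent.Helper69.BQ.St.C2

/-!
# Project BQ, piece S6: the functionals vanish on the units
-/

namespace Pool.Agent.Helper77.BQ

open Pool.Agent.Helper69.BQ
open Module NumberField Pool.Agent.Helper25.Biq Cert

variable {K : Type} [Field K] [NumberField K] [IsGalois ℚ K]

/-! ### bits of the masks -/

private lemma s6_tb {a b : ℕ} (h : a ≤ b) (i : ℕ) :
    (2 ^ b - 2 ^ a).testBit i = true ↔ a ≤ i ∧ i < b := by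
  have h1 : 2 ^ b - 2 ^ a = 2 ^ a * (2 ^ (b - a) - 1) := by
    rw [Nat.mul_sub, mul_one, ← pow_add, Nat.add_sub_cancel' h]
  rw [h1, Nat.testBit_two_pow_mul, Nat.testBit_two_pow_sub_one]
  simp only [Bool.and_eq_true, decide_eq_true_eq]
  omega

private lemma s6_tb_add {a b m : ℕ} (h : a ≤ b) (hm : m < 2 ^ a) (i : ℕ) :
    (2 ^ b - 2 ^ a + m).testBit i = true ↔ (i < a ∧ m.testBit i = true) ∨ (a ≤ i ∧ i < b) := by
  have h1 : 2 ^ b - 2 ^ a = 2 ^ a * (2 ^ (b - a) - 1) := by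
    rw [Nat.mul_sub, mul_one, ← pow_add, Nat.add_sub_cancel' h]
  rw [h1, Nat.testBit_two_pow_mul_add _ hm, Nat.testBit_two_pow_sub_one]
  split_ifs with h2
  · constructor
    · exact fun h3 => Or.inl ⟨h2, h3⟩
    · rintro (⟨-, h3⟩ | ⟨h3, -⟩)
      · exact h3
      · omega
  · simp only [decide_eq_true_eq]
    omega

private lemma s6_pow_le {a b : ℕ} (h : a ≤ b) : 2 ^ a ≤ 2 ^ b := Nat.pow_le_pow_right (by norm_num) h

private lemma s6_d1 (c : Cert) : c.d1m = 2 ^ (2 + c.P12.length + c.P13.length) - 2 ^ 2 := by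
  unfold d1m m12 m13
  have h1 := s6_pow_le (show 2 ≤ 2 + c.P12.length by omega)
  have h2 := s6_pow_le (show 2 + c.P12.length ≤ 2 + c.P12.length + c.P13.length by omega)
  omega

private lemma s6_d2 (c : Cert) : c.d2m = 2 ^ (2 + c.P12.length + c.P13.length + c.P23.length) -
    2 ^ (2 + c.P12.length + c.P13.length) + (2 ^ (2 + c.P12.length) - 2 ^ 1) := by
  unfold d2m m12 m23
  have h1 := s6_pow_le (show 2 ≤ 2 + c.P12.length by omega)
  have h2 := s6_pow_le (show 2 + c.P12.length + c.P13.length ≤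
    2 + c.P12.length + c.P13.length + c.P23.length by omega)
  omega

private lemma s6_d3 (c : Cert) : c.d3m = 2 ^ (2 + c.P12.length + c.P13.length + c.P23.length) -
    2 ^ (2 + c.P12.length) + 2 ^ 1 := by
  unfold d3m m13 m23
  have h1 := s6_pow_le (show 2 + c.P12.length ≤ 2 + c.P12.length + c.P13.length by omega)
  have h2 := s6_pow_le (show 2 + c.P12.length + c.P13.length ≤
    2 + c.P12.length + c.P13.length + c.P23.length by omega)
  omega

private lemma s6_even {a b m : ℕ} (ha : 1 ≤ a) (hab : a ≤ b) (hm : m % 2 = 0) :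
    (2 ^ b - 2 ^ a + m) % 2 = 0 := by
  obtain ⟨a', rfl⟩ := Nat.exists_eq_add_of_le ha
  obtain ⟨b', rfl⟩ := Nat.exists_eq_add_of_le (ha.trans hab)
  have h1 := s6_pow_le hab
  rw [pow_add, pow_add] at *
  omega

private lemma s6_even0 {a b : ℕ} (ha : 1 ≤ a) (hab : a ≤ b) : (2 ^ b - 2 ^ a) % 2 = 0 :=
  s6_even (m := 0) ha hab rfl

private lemma s6_tb1 (c : Cert) (i : ℕ) : c.d1m.testBit (i + 2) = true ↔
    c.m12.testBit (i + 2) = true ∨ c.m13.testBit (i + 2) = true := by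
  rw [s6_d1, m12, m13, s6_tb (by omega), s6_tb (by omega), s6_tb (by omega)]
  omega

private lemma s6_tb2 (c : Cert) (i : ℕ) : c.d2m.testBit (i + 2) = true ↔
    c.m12.testBit (i + 2) = true ∨ c.m23.testBit (i + 2) = true := by
  have h1 := s6_pow_le (show 2 + c.P12.length ≤ 2 + c.P12.length + c.P13.length by omega)
  have h2 : 0 < 2 ^ (2 + c.P12.length) := by positivity
  rw [s6_d2, m12, m23, s6_tb_add (by omega) (by omega), s6_tb (by omega), s6_tb (by omega),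
    s6_tb (by omega)]
  omega

private lemma s6_tb3 (c : Cert) (i : ℕ) : c.d3m.testBit (i + 2) = true ↔
    c.m13.testBit (i + 2) = true ∨ c.m23.testBit (i + 2) = true := by
  have h1 : 2 ^ 1 < 2 ^ (2 + c.P12.length) := Nat.pow_lt_pow_right (by norm_num) (by omega)
  rw [s6_d3, m13, m23, s6_tb_add (by omega) h1, s6_tb (by omega), s6_tb (by omega),
    Nat.testBit_two_pow, decide_eq_true_eq]
  omega

/-! ### the radicands -/

private lemma s6_dvd {c : Cert} (h1 : c.ok1 = true) {p : ℕ} (hp : p.Prime) (hp2 : p ≠ 2)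
    (hpn : p ∉ c.ps) :
    ¬ (p : ℤ) ∣ c.g12 ∧ ¬ (p : ℤ) ∣ c.g13 ∧ ¬ (p : ℤ) ∣ c.g23 := by
  have hps := (ok1_primes h1).1
  have key : ∀ l : List ℕ, (∀ q ∈ l, q ∈ c.ps) → ¬ p ∣ l.prod := by
    intro l hl hd
    obtain ⟨q, hq, hpq⟩ := (Prime.dvd_prod_iff hp.prime).1 hd
    have := (Nat.prime_dvd_prime_iff_eq hp (hps q (hl q hq)).1).1 hpq
    exact hpn (this ▸ hl q hq)
  have m1 : ∀ q ∈ c.P12, q ∈ c.ps := fun q hq => by simp [ps, hq]
  have m2 : ∀ q ∈ c.P13, q ∈ c.ps := fun q hq => by simp [ps, hq]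
  have m3 : ∀ q ∈ c.P23, q ∈ c.ps := fun q hq => by simp [ps, hq]
  refine ⟨fun h => key _ m1 ?_, fun h => key _ m2 ?_, fun h => key _ m3 ?_⟩
  · exact Int.natCast_dvd_natCast.1 h
  · exact Int.natCast_dvd_natCast.1 h
  · have h' := Int.natCast_dvd_natCast.1 h
    rcases (Nat.Prime.dvd_mul hp).1 h' with h3 | h3
    · exact absurd ((Nat.prime_dvd_prime_iff_eq hp Nat.prime_two).1 h3) hp2
    · exact h3

private lemma s6_prime_gt {c : Cert} (h1 : c.ok1 = true) {i : ℕ} (hi : i < c.ps.length) :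
    Prime ((gt c.ps i : ℕ) : ℤ) := by
  have : gt c.ps i ∈ c.ps := by
    unfold gt
    rw [List.getD_eq_getElem _ _ hi]
    exact List.getElem_mem hi
  exact Nat.prime_iff_prime_int.1 ((ok1_primes h1).1 _ this).1

/-! ### the functionals -/

private lemma s6_mul {c : Cert} (h1 : c.ok1 = true) {a b : ℚ} (ha : a ≠ 0) (hb : b ≠ 0) :
    psiF c (a * b) = psiF c a + psiF c b := by
  funext j
  rw [Pi.add_apply, psiF, psiF, psiF, dot, dot, dot, ← Finset.sum_add_distrib]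
  refine Finset.sum_congr rfl fun i hi => ?_
  rw [co_mul (fun p hp => ((ok1_primes h1).1 p hp).1) ha hb i (Finset.mem_range.1 hi), mul_add]

private lemma s6_sq {c : Cert} (h1 : c.ok1 = true) {a : ℚ} (ha : a ≠ 0) :
    psiF c (a ^ 2) = 0 := by
  rw [sq, s6_mul h1 ha ha]
  funext j
  exact CharTwo.add_self_eq_zero _

private lemma s6_core {c : Cert} (h1 : c.ok1 = true) (h2 : c.ok2 = true) {d : ℤ} {dk : ℕ}
    {kk S : List ℕ} (hd : d = valM c.ps dk) (hdk : dk % 2 = 0)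
    (hd2 : ∀ i < c.ps.length, dk.testBit (i + 2) = true ↔ ((gt c.ps i : ℕ) : ℤ) ∣ d)
    (hd3 : ∀ p : ℕ, p.Prime → p ≠ 2 → p ∉ c.ps → ¬ (p : ℤ) ∣ d)
    (hk : kk = consK c.N c.chi dk)
    (h5 : ∀ j < c.n, gt c.psi j % 2 = 0 ∧ gt c.psi j = xorSel kk (gt S j)) {s : ℚ}
    (hs : Adm d s) : psiF c s = 0 := by
  obtain ⟨-, ε, hε, hdot⟩ := adm_consK (ok1_primes h1).1 (ok1_primes h1).2
    (of_decide_eq_true h2) hd hdk hd2 hd3 hs
  funext j
  show dot c.N (co c.ps s) (gt c.psi j) = 0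
  obtain ⟨e0, e1⟩ := h5 j j.2
  have a1 : dot c.N (co c.ps (ε * s)) (gt c.psi j) = 0 := by
    rw [e1, dot_xorSel]
    refine Finset.sum_eq_zero fun i hi => ?_
    have hmem : gt kk i ∈ consK (c.ps.length + 2) c.chi dk := by
      have hi' : i < kk.length := Finset.mem_range.1 hi
      have : gt kk i ∈ kk := by
        unfold gt
        rw [List.getD_eq_getElem _ _ hi']
        exact List.getElem_mem hi'
      rw [hk] at this
      rw [hk]
      exact this
    have := hdot _ hmem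
    show bitz (gt S j) i * dot (c.ps.length + 2) (co c.ps (ε * s)) (gt kk i) = 0
    rw [this, mul_zero]
  rcases hε with rfl | rfl
  · simpa using a1
  · rw [← a1]
    unfold dot
    refine Finset.sum_congr rfl fun i _ => ?_
    rcases i with _ | _ | i
    · have : bitz (gt c.psi j) 0 = 0 := by
        unfold bitz
        rw [Nat.testBit_zero]
        simp [e0]
      rw [this, zero_mul, zero_mul]
    · show _ * vv 2 s = _ * vv 2 (-1 * s)
      rw [neg_one_mul, vv_neg]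
    · show _ * vv _ s = _ * vv _ (-1 * s)
      rw [neg_one_mul, vv_neg]

private lemma s6_adm {d : ℤ} (hd0 : d ≠ 0) (hsq : Squarefree d) : Adm d (d : ℚ) where
  ne := by exact_mod_cast hd0
  supp := fun p hp _ h => vv_of_not_dvd hp h
  nm := by
    refine ⟨-1, Or.inr rfl, fun p hp hp2 hpd => ?_⟩
    have h2 : ¬ (p : ℤ) ^ 2 ∣ d := fun h => by
      have := hsq (p : ℤ) (by rwa [← sq])
      exact (Nat.prime_iff_prime_int.1 hp).not_isUnit this
    rw [vv_of_dvd hp hpd h2, mul_one]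
    congr 1
    push_cast
    ring

/-- S6 (from S1, S2, `rat_unit`). The functionals vanish on the units. -/
theorem psiF_unit {c : Cert} (D : Dat K c.g12 c.g13 c.g23) (h1 : c.ok1 = true)
    (h2 : c.ok2 = true) (h3 : c.ok3 = true) (h5 : c.ok5 = true) {f : ℚ} (hf : f ≠ 0)
    (hu : sc (algebraMap ℚ K f) ∈ UCl K) : psiF c f = 0 := by
  have hA := (ok1_arith h1).1
  have h3' : c.k1 = consK c.N c.chi c.d1m ∧ c.k2 = consK c.N c.chi c.d2m ∧
      c.k3 = consK c.N c.chi c.d3m := by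
    unfold ok3 at h3
    simp only [Bool.and_eq_true, decide_eq_true_eq] at h3
    exact ⟨h3.1.1.1, h3.1.1.2, h3.1.2⟩
  have h5' : ∀ j < c.n, gt c.psi j % 2 = 0 ∧ gt c.psi j = xorSel c.k1 (gt c.S1 j) ∧
      gt c.psi j = xorSel c.k2 (gt c.S2 j) ∧ gt c.psi j = xorSel c.k3 (gt c.S3 j) := by
    intro j hj
    unfold ok5 at h5
    rw [List.all_eq_true] at h5
    have := h5 j (List.mem_range.2 hj)
    simp only [Bool.and_eq_true, decide_eq_true_eq] at this
    exact ⟨this.1.1.1, this.1.1.2, this.1.2, this.2⟩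
  obtain ⟨v1, v2, v3⟩ := valM_d (c := c)
  have c1 : ∀ {s : ℚ}, Adm (c.g12 * c.g13) s → psiF c s = 0 := fun hs =>
    s6_core h1 h2 v1.symm (by rw [s6_d1]; exact s6_even0 (by omega) (by omega))
      (fun i hi => by
        rw [s6_tb1, ← (dvd_iff h1 hi).1, ← (dvd_iff h1 hi).2.1, (s6_prime_gt h1 hi).dvd_mul])
      (fun p hp hp2 hpn hd => by
        rcases (Nat.prime_iff_prime_int.1 hp).dvd_mul.1 hd with h | h
        · exact (s6_dvd h1 hp hp2 hpn).1 h
        · exact (s6_dvd h1 hp hp2 hpn).2.1 h) h3'.1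
      (fun j hj => ⟨(h5' j hj).1, (h5' j hj).2.1⟩) hs
  have c2 : ∀ {s : ℚ}, Adm (c.g12 * c.g23) s → psiF c s = 0 := fun hs =>
    s6_core h1 h2 v2.symm (by
        rw [s6_d2]
        exact s6_even (by omega) (by omega) (s6_even0 le_rfl (by omega)))
      (fun i hi => by
        rw [s6_tb2, ← (dvd_iff h1 hi).1, ← (dvd_iff h1 hi).2.2, (s6_prime_gt h1 hi).dvd_mul])
      (fun p hp hp2 hpn hd => by
        rcases (Nat.prime_iff_prime_int.1 hp).dvd_mul.1 hd with h | h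
        · exact (s6_dvd h1 hp hp2 hpn).1 h
        · exact (s6_dvd h1 hp hp2 hpn).2.2 h) h3'.2.1
      (fun j hj => ⟨(h5' j hj).1, (h5' j hj).2.2.1⟩) hs
  have c3 : ∀ {s : ℚ}, Adm (c.g13 * c.g23) s → psiF c s = 0 := fun hs =>
    s6_core h1 h2 v3.symm (by rw [s6_d3]; exact s6_even (by omega) (by omega) rfl)
      (fun i hi => by
        rw [s6_tb3, ← (dvd_iff h1 hi).2.1, ← (dvd_iff h1 hi).2.2, (s6_prime_gt h1 hi).dvd_mul])
      (fun p hp hp2 hpn hd => by
        rcases (Nat.prime_iff_prime_int.1 hp).dvd_mul.1 hd with h | h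
        · exact (s6_dvd h1 hp hp2 hpn).2.1 h
        · exact (s6_dvd h1 hp hp2 hpn).2.2 h) h3'.2.2
      (fun j hj => ⟨(h5' j hj).1, (h5' j hj).2.2.2⟩) hs
  obtain ⟨a1, a2, a3, q, hq, A1, A2, A3, hcase⟩ := rat_unit D hA hf hu
  have e : psiF c (f * a1 * a2 * a3) = psiF c f := by
    rw [s6_mul h1 (mul_ne_zero (mul_ne_zero hf A1.ne) A2.ne) A3.ne,
      s6_mul h1 (mul_ne_zero hf A1.ne) A2.ne, s6_mul h1 hf A1.ne, c1 A1, c2 A2, c3 A3, add_zero,
      add_zero, add_zero]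
  have hq2 : q ^ 2 ≠ 0 := pow_ne_zero 2 hq
  have sq1 : Squarefree (c.g12 * c.g13) := hA.sqf.squarefree_of_dvd ⟨c.g23, rfl⟩
  have sq2 : Squarefree (c.g12 * c.g23) := hA.sqf.squarefree_of_dvd ⟨c.g13, by ring⟩
  have sq3 : Squarefree (c.g13 * c.g23) := hA.sqf.squarefree_of_dvd ⟨c.g12, by ring⟩
  have n1 : c.g12 * c.g13 ≠ 0 := (mul_pos hA.pos12 hA.pos13).ne'
  have n2 : c.g12 * c.g23 ≠ 0 := (mul_pos hA.pos12 hA.pos23).ne'
  have n3 : c.g13 * c.g23 ≠ 0 := (mul_pos hA.pos13 hA.pos23).ne'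
  rw [← e]
  rcases hcase with h | h | h | h
  · rw [h, s6_sq h1 hq]
  · rw [h, s6_mul h1 (s6_adm n1 sq1).ne hq2, c1 (s6_adm n1 sq1), s6_sq h1 hq, add_zero]
  · rw [h, s6_mul h1 (s6_adm n2 sq2).ne hq2, c2 (s6_adm n2 sq2), s6_sq h1 hq, add_zero]
  · rw [h, s6_mul h1 (s6_adm n3 sq3).ne hq2, c3 (s6_adm n3 sq3), s6_sq h1 hq, add_zero]

end Pool.Agent.Helper77.BQ
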